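import Pool.Agent.E8helper78.FL.Stm

set_option autoImplicit false

open scoped RealInnerProductSpace NNReal

namespace Pool.Agent.E8helper38.FLR

open Pool.Agent.E8helper78.FL

section

variable {V : Type} [NormedAddCommGroup V] [InnerProductSpace ℝ V]

theorem rf_self (a : V) : rf a a = -a := Submodule.reflection_orthogonalComplement_singleton_eq_neg a

theorem rf_rf (a x : V) : rf a (rf a x) = x := Submodule.reflection_reflection _ x

theorem rf_unit {a : V} (ha : ‖a‖ = 1) (x : V) : rf a x = x - (2 * ⟪a, x⟫) • a := by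
  unfold rf
  have h := Submodule.reflection_singleton_apply (𝕜 := ℝ) a x
  rw [Submodule.reflection_orthogonal_apply, h, ha]
  simp only [one_pow, div_one, map_one]
  rw [neg_sub, two_smul, ← two_smul ℝ, smul_smul]

theorem rf_adj (a x y : V) : ⟪rf a x, y⟫ = ⟪x, rf a y⟫ := by
  have h := (rf a).inner_map_map x (rf a y)
  rw [rf_rf] at h
  exact h

theorem rf_conj (a : V) {x : V} (hx : ‖x‖ = 1) : rf (rf a x) = rf a * rf x * rf a := by
  ext y
  have h1 : ‖rf a x‖ = 1 := by rw [(rf a).norm_map, hx]
  rw [rf_unit h1]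
  show _ = rf a (rf x (rf a y))
  rw [rf_unit hx, map_sub, rf_rf, map_smul, rf_adj]

theorem rf_sq (a : V) : rf a * rf a = 1 := by
  ext y
  exact rf_rf a y

theorem pr_map (a : V) (L : List V) (hL : ∀ x ∈ L, ‖x‖ = 1) :
    pr (L.map (rf a)) = rf a * pr L * rf a := by
  induction L with
  | nil =>
    simp only [pr, List.map_nil, List.prod_nil, mul_one]
    exact (rf_sq a).symm
  | cons b L ih =>
    have h1 := ih (fun x hx => hL x (List.mem_cons_of_mem _ hx))
    have h2 := rf_conj a (hL b (List.mem_cons_self))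
    simp only [pr, List.map_cons, List.prod_cons] at h1 ⊢
    rw [h1, h2]
    calc rf a * rf b * rf a * (rf a * (L.map rf).prod * rf a)
        = rf a * rf b * (rf a * rf a) * (L.map rf).prod * rf a := by group
      _ = _ := by rw [rf_sq]; group

/-- one rotation -/
noncomputable def step : List V → List V
  | [] => []
  | a :: L => L.map (rf a) ++ [-a]

theorem step_iter (n : ℕ) : ∀ (L₁ L₂ : List V), L₁.length = n → (∀ x ∈ L₁, ‖x‖ = 1) →
    step^[n] (L₁ ++ L₂) = L₂.map (pr L₁) ++ L₁.map (pr L₁) := by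
  induction n with
  | zero =>
    intro L₁ L₂ h _
    rw [List.length_eq_zero_iff] at h
    subst h
    simp [pr]
  | succ n ih =>
    intro L₁ L₂ h hu
    match L₁, h with
    | a :: L, h =>
      have hu' : ∀ x ∈ L, ‖x‖ = 1 := fun x hx => hu x (List.mem_cons_of_mem _ hx)
      have hlen : (L.map (rf a)).length = n := by simpa using h
      have hun : ∀ x ∈ L.map (rf a), ‖x‖ = 1 := by
        intro x hx
        obtain ⟨y, hy, rfl⟩ := List.mem_map.1 hx
        rw [(rf a).norm_map, hu' y hy]
      rw [Function.iterate_succ_apply]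
      have e1 : step ((a :: L) ++ L₂) = L.map (rf a) ++ (L₂.map (rf a) ++ [-a]) := by
        simp [step]
      rw [e1, ih _ _ hlen hun, pr_map a L hu']
      have e2 : pr (a :: L) = rf a * pr L := by simp [pr]
      have e3 : ∀ x : V, (rf a * pr L * rf a) (rf a x) = (rf a * pr L) x := by
        intro x
        show rf a (pr L (rf a (rf a x))) = rf a (pr L x)
        rw [rf_rf]
      rw [e2]
      simp only [List.map_append, List.map_map, List.map_cons, List.map_nil]
      have e4 : ((rf a * pr L * rf a : V ≃ₗᵢ[ℝ] V) : V → V) ∘ (rf a : V → V) =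
          ((rf a * pr L : V ≃ₗᵢ[ℝ] V) : V → V) := by
        funext x
        exact e3 x
      have e5 : (rf a * pr L * rf a : V ≃ₗᵢ[ℝ] V) (-a) = (rf a * pr L : V ≃ₗᵢ[ℝ] V) a := by
        have := e3 a
        rw [rf_self] at this
        exact this
      rw [e4, e5, List.append_assoc]
      rfl

theorem pr_mem {Φ : Set V} (hΦ : IsRoots Φ) (L : List V) (hL : ∀ x ∈ L, x ∈ Φ) :
    ∀ a ∈ Φ, pr L a ∈ Φ := by
  induction L with
  | nil => intro a ha; simpa [pr] using ha
  | cons b L ih =>
    intro a ha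
    have h1 := ih (fun x hx => hL x (List.mem_cons_of_mem _ hx)) a ha
    have h2 := hΦ.refl b (hL b List.mem_cons_self) _ h1
    simpa [pr] using h2

/-- a vector with product one with all elements of a list of simple roots -/
theorem exists_l [FiniteDimensional ℝ V] {Φ : Set V} {M : List V} (h : Std Φ M) :
    ∃ l : V, (∀ x ∈ cone {a | a ∈ M}, 0 ≤ ⟪l, x⟫ ∧ (⟪l, x⟫ = 0 → x = 0)) := by
  classical
  have hsp : ⊤ ≤ Submodule.span ℝ (Set.range (fun a : {a // a ∈ M} => (a : V))) := by
    rw [Subtype.range_coe_subtype]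
    exact h.span.ge
  set B := Module.Basis.mk h.indep hsp with hB
  have : Fintype {a // a ∈ M} := FiniteDimensional.fintypeBasisIndex B
  set φ : V →ₗ[ℝ] ℝ := B.constr ℝ (fun _ => (1 : ℝ)) with hφ
  have hφx : ∀ x, φ x = ∑ i, B.repr x i := by
    intro x
    rw [hφ, Module.Basis.constr_apply_fintype]
    simp
  refine ⟨(InnerProductSpace.toDual ℝ V).symm (LinearMap.toContinuousLinearMap φ), ?_⟩
  intro x hx
  rw [InnerProductSpace.toDual_symm_apply]
  show 0 ≤ φ x ∧ (φ x = 0 → x = 0)
  have hnn : ∀ i, 0 ≤ B.repr x i := by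
    unfold cone at hx
    induction hx using Submodule.span_induction with
    | mem y hy =>
      intro i
      have : y = B ⟨y, hy⟩ := by rw [hB, Module.Basis.mk_apply]
      rw [this, Module.Basis.repr_self, Finsupp.single_apply]
      split_ifs <;> norm_num
    | zero => intro i; simp
    | add y z _ _ h1 h2 =>
      intro i
      rw [map_add, Finsupp.add_apply]
      exact add_nonneg (h1 i) (h2 i)
    | smul t y _ h1 =>
      intro i
      have : t • y = (t : ℝ) • y := rfl
      rw [this, map_smul, Finsupp.smul_apply]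
      exact mul_nonneg t.2 (h1 i)
  rw [hφx]
  refine ⟨Finset.sum_nonneg fun i _ => hnn i, fun h0 => ?_⟩
  have h1 := (Finset.sum_eq_zero_iff_of_nonneg fun i _ => hnn i).1 h0
  have h2 : B.repr x = 0 := by
    ext i
    exact h1 i (Finset.mem_univ i)
  simpa using h2

end

theorem t_ROT (h1 : S_ROT1) (h2 : S_ROT2) : S_ROT := by
  intro V _ _ _ Φ L E hne hstd hE
  classical
  have hΦ := hstd.roots
  set c := pr L with hc
  set Ls : ℕ → List V := fun i => step^[i] L with hLs
  have hLs0 : Ls 0 = L := rfl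
  have hLs1 : ∀ i, Ls (i + 1) = step (Ls i) := fun i => Function.iterate_succ_apply' _ _ _
  have hbase : ∀ i, Ls i ≠ [] ∧ Std Φ (Ls i) ∧ pr (Ls i) = c := by
    intro i
    induction i with
    | zero => exact ⟨hne, hstd, rfl⟩
    | succ i ih =>
      obtain ⟨g1, g2, g3⟩ := ih
      rw [hLs1]
      match hM : Ls i with
      | [] => exact absurd hM g1
      | a :: M =>
        rw [hM] at g2 g3
        obtain ⟨k1, k2, -, -⟩ := h1 V Φ a M g2
        refine ⟨by simp [step], k1, ?_⟩
        rw [← g3, ← k2]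
        rfl
  have hlen : ∀ i, (Ls i).length = L.length := by
    intro i
    induction i with
    | zero => rfl
    | succ i ih =>
      rw [hLs1, ← ih]
      cases Ls i with
      | nil => rfl
      | cons a M => simp [step]
  choose l hl using fun i => exists_l (hbase i).2.1
  set r : ℕ → V := fun i => (Ls i).head (hbase i).1 with hr
  have hcons : ∀ i, ∃ M, Ls i = r i :: M := by
    intro i
    exact ⟨(Ls i).tail, by rw [hr]; exact (List.cons_head_tail (hbase i).1).symm⟩
  have hroot0 : ∀ a ∈ Φ, a ≠ 0 := by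
    intro a ha h0
    have := hΦ.unit a ha
    rw [h0, norm_zero] at this
    exact zero_ne_one this
  have hposne : ∀ i, ∀ a ∈ Φ, a ∈ cone {a | a ∈ Ls i} → 0 < ⟪l i, a⟫ := by
    intro i a ha hca
    obtain ⟨g1, g2⟩ := hl i a hca
    exact lt_of_le_of_ne g1 fun h => hroot0 a ha (g2 h.symm)
  have hpos : ∀ i, pos Φ (l i) = PL Φ (Ls i) := by
    intro i
    ext a
    constructor
    · rintro ⟨ha, hla⟩
      refine ⟨ha, ?_⟩
      rcases (hbase i).2.1.pos a ha with h | h
      · exact h
      · have := (hl i _ h).1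
        rw [inner_neg_right] at this
        linarith
    · rintro ⟨ha, hca⟩
      exact ⟨ha, hposne i a ha hca⟩
  have hreg : ∀ i, ∀ a ∈ Φ, ⟪l i, a⟫ ≠ 0 := by
    intro i a ha h0
    rcases (hbase i).2.1.pos a ha with h | h
    · exact hroot0 a ha ((hl i a h).2 h0)
    · have := (hl i _ h).2 (by rw [inner_neg_right, h0, neg_zero])
      exact hroot0 a ha (neg_eq_zero.1 this)
  have hmem : ∀ i, r i ∈ pos Φ (l i) := by
    intro i
    have hri : r i ∈ Ls i := List.head_mem _
    rw [hpos]
    exact ⟨(hbase i).2.1.mem _ hri, Submodule.subset_span hri⟩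
  have hnext : ∀ i, pos Φ (l (i + 1)) = (pos Φ (l i) \ {r i}) ∪ {-r i} := by
    intro i
    rw [hpos, hpos, hLs1]
    obtain ⟨M, hM⟩ := hcons i
    rw [hM]
    have := (h1 V Φ (r i) M (hM ▸ (hbase i).2.1)).2.2.1
    exact this
  have hrefl : ∀ i, ∀ y ∈ pos Φ (l i), y ≠ r i → rf (r i) y ∈ pos Φ (l i) := by
    intro i y hy hyr
    rw [hpos] at hy ⊢
    obtain ⟨M, hM⟩ := hcons i
    rw [hM] at hy ⊢
    exact (h1 V Φ (r i) M (hM ▸ (hbase i).2.1)).2.2.2 y hy hyr
  have hrot2 : ∀ i, (∀ y ∈ pos Φ (l i), 0 ≤ E (r i) y) ∧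
      ∀ y ∈ pos Φ (l i), y ≠ r i → E y (r i) ≤ 0 := by
    intro i
    rw [hpos]
    obtain ⟨M, hM⟩ := hcons i
    rw [hM]
    exact h2 V Φ (r i) M E (hM ▸ (hbase i).2.1) (by rw [← hM, (hbase i).2.2]; exact hE)
  -- the vectors fixed by `c` vanish
  have hfix : ∀ y : V, c y = y → y = 0 := by
    intro y hy
    have := hE y y
    rw [hy, sub_self, map_zero, LinearMap.zero_apply] at this
    exact inner_self_eq_zero.1 this.symm
  -- finite order
  have hcΦ : ∀ a ∈ Φ, c a ∈ Φ := pr_mem hΦ L hstd.mem
  have hcΦn : ∀ (j : ℕ), ∀ a ∈ Φ, (c ^ j) a ∈ Φ := by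
    intro j
    induction j with
    | zero => intro a ha; simpa using ha
    | succ j ih =>
      intro a ha
      rw [pow_succ']
      exact hcΦ _ (ih a ha)
  have hspan : Submodule.span ℝ Φ = ⊤ := by
    rw [eq_top_iff, ← hstd.span]
    exact Submodule.span_mono fun a ha => hstd.mem a ha
  obtain ⟨N, hN1, hN⟩ : ∃ N : ℕ, 1 ≤ N ∧ c ^ N = 1 := by
    have hfinΦ : Finite ↥Φ := hΦ.fin.to_subtype
    obtain ⟨p, q, hpq, he⟩ := Finite.exists_ne_map_eq_of_infinite
      (fun j : ℕ => fun a : Φ => (⟨(c ^ j) a.1, hcΦn j a.1 a.2⟩ : Φ))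
    have he' : ∀ a ∈ Φ, (c ^ p) a = (c ^ q) a := by
      intro a ha
      have := congrFun he ⟨a, ha⟩
      exact congrArg Subtype.val this
    have hpq' : c ^ p = c ^ q := by
      have hlin : ((c ^ p).toLinearEquiv : V →ₗ[ℝ] V) = ((c ^ q).toLinearEquiv : V →ₗ[ℝ] V) :=
        LinearMap.ext_on hspan fun a ha => he' a ha
      ext x
      exact LinearMap.congr_fun hlin x
    rcases lt_or_gt_of_ne hpq with h | h
    · refine ⟨q - p, by omega, ?_⟩
      have : c ^ q = c ^ p * c ^ (q - p) := by rw [← pow_add]; congr 1; omega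
      rw [this] at hpq'
      exact (mul_eq_left.1 hpq'.symm)
    · refine ⟨p - q, by omega, ?_⟩
      have : c ^ p = c ^ q * c ^ (p - q) := by rw [← pow_add]; congr 1; omega
      rw [this] at hpq'
      exact (mul_eq_left.1 hpq')
  -- rotation by the length of the list
  have hfull : ∀ k, Ls (k + L.length) = (Ls k).map c := by
    intro k
    have e1 : Ls (k + L.length) = step^[L.length] (Ls k) := by
      show step^[k + L.length] L = _
      rw [Nat.add_comm, Function.iterate_add_apply]
    have e2 := step_iter L.length (Ls k) [] (hlen k)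
      (fun x hx => hΦ.unit x ((hbase k).2.1.mem x hx))
    rw [List.append_nil, (hbase k).2.2] at e2
    rw [e1, e2]
    simp
  have hfulln : ∀ k j, Ls (k + j * L.length) = (Ls k).map (c ^ j : V ≃ₗᵢ[ℝ] V) := by
    intro k j
    induction j with
    | zero => simp
    | succ j ih =>
      have : k + (j + 1) * L.length = (k + j * L.length) + L.length := by ring
      rw [this, hfull, ih, List.map_map]
      congr 1
      funext x
      show c ((c ^ j) x) = (c ^ (j + 1)) x
      rw [pow_succ']
      rfl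
  have hterm : ∀ x : V, x ≠ 0 → ∀ i, ∃ k, i ≤ k ∧ x ∉ cone (pos Φ (l k)) := by
    intro x hx i
    by_contra hcon
    push Not at hcon
    have hk : ∀ k, i ≤ k → x ∈ cone {a | a ∈ Ls k} := by
      intro k hik
      have h3 := hcon k hik
      rw [hpos] at h3
      unfold cone at h3 ⊢
      refine (Submodule.span_le.2 ?_) h3
      rintro a ⟨-, ha⟩
      exact ha
    have hinv : ∀ j : ℕ, (c ^ j).symm x ∈ cone {a | a ∈ Ls i} := by
      intro j
      have h3 := hk (i + j * L.length) (by omega)
      rw [hfulln] at h3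
      unfold cone at h3 ⊢
      clear hk hcon hx
      induction h3 using Submodule.span_induction with
      | mem y hy =>
        obtain ⟨z, hz, rfl⟩ := List.mem_map.1 hy
        rw [LinearIsometryEquiv.symm_apply_apply]
        exact Submodule.subset_span hz
      | zero => rw [map_zero]; exact zero_mem _
      | add y z _ _ g1 g2 => rw [map_add]; exact add_mem g1 g2
      | smul t y _ g1 =>
        have e : t • y = (t : ℝ) • y := rfl
        rw [e, map_smul]
        exact Submodule.smul_mem _ t g1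
    set y := ∑ j ∈ Finset.range N, (c ^ j).symm x with hy
    have hyfix : c y = y := by
      have e1 : ∀ j, c ((c ^ (j + 1)).symm x) = (c ^ j).symm x := by
        intro j
        apply (c ^ j).injective
        rw [LinearIsometryEquiv.apply_symm_apply]
        have : (c ^ j) (c ((c ^ (j + 1)).symm x)) = (c ^ (j + 1)) ((c ^ (j + 1)).symm x) := by
          rw [pow_succ]
          rfl
        rw [this, LinearIsometryEquiv.apply_symm_apply]
      have e2 : c ((c ^ 0).symm x) = (c ^ (N - 1)).symm x := by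
        apply (c ^ (N - 1)).injective
        rw [LinearIsometryEquiv.apply_symm_apply]
        have : (c ^ (N - 1)) (c ((c ^ 0).symm x)) = (c ^ N) x := by
          have hN' : N = (N - 1) + 1 := by omega
          conv_rhs => rw [hN', pow_succ]
          rfl
        rw [this, hN]
        rfl
      obtain ⟨N', rfl⟩ : ∃ N', N = N' + 1 := ⟨N - 1, by omega⟩
      rw [hy, map_sum]
      rw [Finset.sum_range_succ' (fun j => c ((c ^ j).symm x)), e2]
      simp only [e1, Nat.add_sub_cancel]
      rw [Finset.sum_range_succ]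
    have hy0 := hfix y hyfix
    have h4 : ∑ j ∈ Finset.range N, ⟪l i, (c ^ j).symm x⟫ = 0 := by
      rw [← inner_sum, ← hy, hy0, inner_zero_right]
    have h5 := (Finset.sum_eq_zero_iff_of_nonneg fun j _ => (hl i _ (hinv j)).1).1 h4 0
      (Finset.mem_range.2 hN1)
    have h6 := (hl i _ (hinv 0)).2 h5
    exact hx (by simpa using h6)
  have hall0 : ∀ a, ∀ i, a ∈ pos Φ (l i) → ∃ k, i ≤ k ∧ r k = a := by
    intro a i ha
    have hex : ∃ k, i ≤ k ∧ a ∉ pos Φ (l k) := by
      obtain ⟨k, hk, hk'⟩ := hterm a (hroot0 a ha.1) i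
      exact ⟨k, hk, fun h => hk' (Submodule.subset_span h)⟩
    have hfind := Nat.find_spec hex
    have hmin := fun m (hm : m < Nat.find hex) => Nat.find_min hex hm
    set k := Nat.find hex with hkdef
    have hki : k ≠ i := fun h => hfind.2 (h ▸ ha)
    obtain ⟨k', hk'⟩ : ∃ k', k = k' + 1 := ⟨k - 1, by omega⟩
    have hik' : i ≤ k' := by omega
    have hak' : a ∈ pos Φ (l k') := by
      by_contra h
      exact hmin k' (by omega) ⟨hik', h⟩
    refine ⟨k', hik', ?_⟩
    by_contra hne'
    apply hfind.2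
    rw [hk', hnext]
    exact Or.inl ⟨hak', fun h => hne' h.symm⟩
  have hneg : ∀ a ∈ Φ, -a ∈ Φ := by
    intro a ha
    have := hΦ.refl a ha a ha
    rwa [rf_self] at this
  have hall : ∀ a ∈ Φ, ∀ i, ∃ k, i ≤ k ∧ r k = a := by
    intro a ha i
    by_cases hai : a ∈ pos Φ (l i)
    · exact hall0 a i hai
    · have hna : -a ∈ pos Φ (l i) := by
        refine ⟨hneg a ha, ?_⟩
        rw [inner_neg_right]
        have h3 := hreg i a ha
        have h4 : ¬ 0 < ⟪l i, a⟫ := fun h => hai ⟨ha, h⟩
        rcases lt_or_gt_of_ne h3 with h | h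
        · linarith
        · exact absurd h h4
      obtain ⟨k, hk, hrk⟩ := hall0 (-a) i hna
      have h5 : a ∈ pos Φ (l (k + 1)) := by
        rw [hnext]
        right
        rw [Set.mem_singleton_iff, hrk, neg_neg]
      obtain ⟨k2, hk2, hrk2⟩ := hall0 a (k + 1) h5
      exact ⟨k2, by omega, hrk2⟩
  refine ⟨l, r, ⟨hreg, hmem, hnext, fun i => (hrot2 i).1, fun i => (hrot2 i).2, hrefl, hterm,
    hall⟩, hpos 0⟩

end Pool.Agent.E8helper38.FLR
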